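import Pool.Agent.Lib.MP_c5d73d_lc.F.Iter

/-!
# Module DELTA of project MAC: the Delta-system lemma
-/

universe u v w

open Cardinal Filter Set

namespace Pool.Agent.Lib.MP_c5d73d_lc.F.H5

open Pool.Agent.Lib.MP_c5d73d_lc.F

/-- the case where all sets have `n` elements -/
theorem delta_card {T I : Type u} (n : ℕ) : ∀ (f : T → Finset I) (S : Set T), ¬ S.Countable →
    (∀ s ∈ S, (f s).card = n) → ∃ (S' : Set T) (r : Set I), S' ⊆ S ∧ ¬ S'.Countable ∧
      ∀ s ∈ S', ∀ t ∈ S', s ≠ t → (f s : Set I) ∩ (f t : Set I) = r := by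
  classical
  induction n with
  | zero =>
    intro f S hS hn
    refine ⟨S, ∅, subset_rfl, hS, fun s hs t _ _ => ?_⟩
    rw [Finset.card_eq_zero.mp (hn s hs)]
    simp
  | succ n ih =>
    intro f S hS hn
    by_cases hA : ∃ i, ¬ {s ∈ S | i ∈ f s}.Countable
    · obtain ⟨i, hi⟩ := hA
      obtain ⟨S', r, h1, h2, h3⟩ := ih (fun s => (f s).erase i) {s ∈ S | i ∈ f s} hi
        (fun s hs => by rw [Finset.card_erase_of_mem hs.2, hn s hs.1]; rfl)
      refine ⟨S', insert i r, fun s hs => (h1 hs).1, h2, fun s hs t ht hst => ?_⟩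
      have e := h3 s hs t ht hst
      have hs' := (h1 hs).2
      have ht' := (h1 ht).2
      rw [← e]
      ext j
      simp only [Finset.coe_erase, mem_inter_iff, Finset.mem_coe, mem_insert_iff, Set.mem_sdiff,
        mem_singleton_iff]
      by_cases hj : j = i
      · subst hj; simp [hs', ht']
      · simp [hj]
    · push Not at hA
      -- a maximal pairwise disjoint subfamily
      obtain ⟨S', hS'⟩ := zorn_subset {R : Set T | R ⊆ S ∧ R.PairwiseDisjoint f} (by
        intro c hc hch
        refine ⟨⋃₀ c, ⟨sUnion_subset fun R hR => (hc hR).1, ?_⟩, fun R hR =>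
          subset_sUnion_of_mem hR⟩
        rw [pairwiseDisjoint_sUnion hch.directedOn]
        exact fun R hR => (hc hR).2)
      refine ⟨S', ∅, hS'.1.1, fun hc => hS ?_, fun s hs t ht hst => ?_⟩
      · have hU : (⋃ s ∈ S', (f s : Set I)).Countable :=
          hc.biUnion fun s _ => (f s).countable_toSet
        refine (hU.biUnion fun i _ => hA i).mono fun s hs => ?_
        have hne : (f s).Nonempty := by
          rw [← Finset.card_pos, hn s hs]; exact Nat.succ_pos n
        by_cases hsS : s ∈ S'
        · obtain ⟨i, hi⟩ := hne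
          exact mem_biUnion (mem_biUnion hsS (by exact_mod_cast hi)) ⟨hs, hi⟩
        · have hmeet : ∃ t ∈ S', ¬ Disjoint (f s) (f t) := by
            by_contra hcon
            push Not at hcon
            have hins : insert s S' ∈ {R : Set T | R ⊆ S ∧ R.PairwiseDisjoint f} :=
              ⟨insert_subset hs hS'.1.1, hS'.1.2.insert fun t ht _ => hcon t ht⟩
            exact hsS (hS'.2 hins (subset_insert _ _) (mem_insert _ _))
          obtain ⟨t, ht, hd⟩ := hmeet
          rw [Finset.not_disjoint_iff] at hd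
          obtain ⟨i, hi, hi'⟩ := hd
          exact mem_biUnion (mem_biUnion ht (by exact_mod_cast hi')) ⟨hs, hi⟩
      · have h := hS'.1.2 hs ht hst
        have h' : Disjoint (f s) (f t) := h
        rw [← Finset.coe_inter, Finset.disjoint_iff_inter_eq_empty.mp h', Finset.coe_empty]

/-- DELTA -/
theorem delta : DeltaStatement.{u} := by
  intro T I f hT
  have hex : ∃ n, ¬ {t : T | (f t).card = n}.Countable := by
    by_contra hcon
    push Not at hcon
    have hall : (univ : Set T).Countable := by
      refine (countable_iUnion hcon).mono fun t _ => mem_iUnion.mpr ⟨(f t).card, rfl⟩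
    rw [countable_univ_iff] at hall
    exact absurd (mk_le_aleph0_iff.mpr hall) (not_le.mpr hT)
  obtain ⟨n, hn⟩ := hex
  obtain ⟨S, r, _, h2, h3⟩ := delta_card n f _ hn fun s hs => hs
  refine ⟨S, r, ?_, h3⟩
  rw [← not_le, le_aleph0_iff_set_countable]
  exact h2

end Pool.Agent.Lib.MP_c5d73d_lc.F.H5
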