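import Pool.Agent.Lib.MP_c5d73d_lc.F.Iter

/-!
# Module ORDI of project MAC: basic properties of the orders of the iteration
-/

universe u v w

open Cardinal Filter

namespace Pool.Agent.Lib.MP_c5d73d_lc.F.H5

open Pool.Agent.Lib.MP_c5d73d_lc.F

/-- Forcing passes to stronger conditions, for a transitive relation. -/
theorem frc_mono {P : Type u} {R : P → P → Prop} (hR : ∀ p q r, R p q → R q r → R p r)
    {A : Set P} {p q : P} (h : R p q) (hq : Frc R A q) : Frc R A p :=
  fun p' hp' => hq p' (hR _ _ _ hp' h)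

/-- Forcing only depends on the relation to `p`. -/
theorem frc_congr {P : Type u} {R : P → P → Prop} {A : Set P} {p q : P}
    (h : ∀ r, R r q → R r p) (hp : Frc R A p) : Frc R A q :=
  fun p' hp' => hp p' (h _ hp')

section

variable {I : Type u} [LinearOrder I] [WellFoundedLT I] {z : I} {g : I → NameI I}

theorem RS_mono {a b : WithTop I} (h : b ≤ a) {p q : Cnd z g} (hp : RS z g a p q) :
    RS z g b p q := fun β hβ => hp β (hβ.trans_le h)

theorem RS_refl (a : WithTop I) (p : Cnd z g) : RS z g a p p :=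
  fun β _ hV => hV.refl p _ (p.2.2 β)

/-- transitivity at `a` from transitivity at the stages below `a` -/
theorem RS_trans_of {a : WithTop I}
    (h : ∀ β : I, (β : WithTop I) < a → ∀ p q r : Cnd z g, RL z g β p q → RL z g β q r →
      RL z g β p r) {p q r : Cnd z g} (h1 : RS z g a p q) (h2 : RS z g a q r) :
    RS z g a p r := by
  intro β hβ hV
  have e1 := h1 β hβ hV
  have e2 := h2 β hβ hV
  have hpq : RL z g β p q := by
    rw [← RS_coe]
    exact RS_mono hβ.le h1
  exact hV.trans p _ (p.2.2 β) _ (q.2.2 β) _ (r.2.2 β) e1 (frc_mono (h β hβ) hpq e2)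

theorem RL_trans (α : I) : ∀ p q r : Cnd z g, RL z g α p q → RL z g α q r → RL z g α p r := by
  induction α using WellFoundedLT.induction with
  | ind α ih =>
    intro p q r h1 h2
    rw [← RS_coe] at h1 h2 ⊢
    exact RS_trans_of (fun β hβ => ih β (WithTop.coe_lt_coe.mp hβ)) h1 h2

theorem RS_trans (a : WithTop I) (p q r : Cnd z g) (h1 : RS z g a p q) (h2 : RS z g a q r) :
    RS z g a p r := RS_trans_of (fun β _ => RL_trans β) h1 h2

/-- congruence at `a` from congruence at the stages below `a` -/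
theorem RS_congr_of {a : WithTop I}
    (h : ∀ β : I, (β : WithTop I) < a → ∀ p p' q q' : Cnd z g,
      (∀ γ : I, γ < β → p.1 γ = p'.1 γ ∧ q.1 γ = q'.1 γ) → RL z g β p q → RL z g β p' q')
    {p p' q q' : Cnd z g}
    (he : ∀ β : I, (β : WithTop I) < a → p.1 β = p'.1 β ∧ q.1 β = q'.1 β)
    (h1 : RS z g a p q) : RS z g a p' q' := by
  intro β hβ hV
  have e1 := h1 β hβ hV
  rw [← (he β hβ).1, ← (he β hβ).2]
  refine frc_congr (fun r hr => ?_) e1
  refine h β hβ r r p' p (fun γ hγ => ⟨rfl, ?_⟩) hr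
  exact ((he γ ((WithTop.coe_lt_coe.mpr hγ).trans hβ)).1).symm

theorem RL_congr (α : I) : ∀ p p' q q' : Cnd z g,
    (∀ γ : I, γ < α → p.1 γ = p'.1 γ ∧ q.1 γ = q'.1 γ) → RL z g α p q → RL z g α p' q' := by
  induction α using WellFoundedLT.induction with
  | ind α ih =>
    intro p p' q q' he h1
    rw [← RS_coe] at h1 ⊢
    exact RS_congr_of (fun β hβ => ih β (WithTop.coe_lt_coe.mp hβ))
      (fun β hβ => he β (WithTop.coe_lt_coe.mp hβ)) h1

theorem RS_congr (a : WithTop I) (p p' q q' : Cnd z g)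
    (he : ∀ β : I, (β : WithTop I) < a → p.1 β = p'.1 β ∧ q.1 β = q'.1 β)
    (h1 : RS z g a p q) : RS z g a p' q' :=
  RS_congr_of (fun β _ => RL_congr β) he h1

omit [WellFoundedLT I] in
theorem glue_lt {a : WithTop I} {p q : Cnd z g} {β : I} (h : (β : WithTop I) < a) :
    (glue a p q).1 β = p.1 β := by
  simp [glue, glueF, h]

omit [WellFoundedLT I] in
theorem glue_ge {a : WithTop I} {p q : Cnd z g} {β : I} (h : a ≤ (β : WithTop I)) :
    (glue a p q).1 β = q.1 β := by
  simp [glue, glueF, not_lt.mpr h]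

theorem RS_glue (a b : WithTop I) (p q : Cnd z g) (_ : b ≤ a) (h : RS z g b p q) :
    RS z g a (glue b p q) q := by
  intro β hβ
  rcases lt_or_ge (β : WithTop I) b with h1 | h1
  · have h2 : RS z g b (glue b p q) q :=
      RS_congr b p (glue b p q) q q (fun γ hγ => ⟨(glue_lt hγ).symm, rfl⟩) h
    exact h2 β h1
  · rw [glue_ge h1]
    intro hV
    exact hV.refl _ _ (q.2.2 β)

theorem RS_supp (a b : WithTop I) (p n : Cnd z g) (_ : b ≤ a)
    (hn : ∀ β : I, b ≤ (β : WithTop I) → n.1 β = z) (h : RS z g b p n) :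
    RS z g a p n := by
  intro β hβ
  rcases lt_or_ge (β : WithTop I) b with h1 | h1
  · exact h β h1
  · rw [hn β h1]
    intro hV
    exact hV.top _ _ (p.2.2 β)

end

/-- ORDI -/
theorem ordi : OrdiStatement.{u} := fun _ _ _ _ _ _ =>
  ⟨RS_refl, RS_trans, RS_congr, RS_glue, RS_supp⟩

end Pool.Agent.Lib.MP_c5d73d_lc.F.H5
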